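import Pool.Agent.R590.BrFin

/-!
# Generalized Borel functions are obtained from continuous ones by sequential limits

Positive answer to Q1. Here `κ` is the cardinal `λ` of the question; `Sp κ` is the space of all
functions from `κ` to `κ` with the bounded topology, and `X`, `Y` are arbitrary subspaces of it.
-/

set_option autoImplicit false

namespace Pool.Agent.Results.MP_f4bae3_lc.SequentialLimits

open Cardinal Pool.Agent.R590.Kur Pool.Agent.R590.Brl

theorem result (κ : Cardinal.{0}) (hκ : κ.IsRegular) (_ : ℵ₀ < κ)
    (h2 : (2 : Cardinal.{0}) ^< κ = κ) (X Y : Set (Sp κ)) (f : X → Y) :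
    BorMeas κ f ↔ SeqCl κ f :=
  ⟨seqCl_of_borMeas hκ h2, borMeas_of_seqCl hκ h2⟩

end Pool.Agent.Results.MP_f4bae3_lc.SequentialLimits
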